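import Pool.Agent.H6.NE.Stm3

/-! # NE: the statement `S_SUB` (subrings of the logarithms) -/

set_option autoImplicit false

open Finset

namespace H42.NE
open H6.NE

/-- SUB: `h` a Lie subring of the logarithms of `H`: `log (ex x * ex y) ≡ x + y` mod `[h, h]` for `x, y ∈ h`.
Proof: `H' = <ex x : x ∈ h>`, `L' = LHm H'`, `D' = [L', L']`.  A functional `f` on `L'` killing `D'` is invariant
under `H'` (`Ad (ex x) - 1 = ad x * ...`), so INV gives `f (log (g g')) = f (log g) + f (log g')`; functionals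
separate the points of `L' / D'`, so `log (ex x ex y) ≡ x + y` mod `D'` for all `x, y ∈ L'`.  Hence `L' = h + D'`
and by nilpotency (`J^(c+1) = 0`) `L' = h`. -/
def S_SUB : Prop := ∀ (p N c : ℕ) [Fact p.Prime], 0 < N → ∀ (S : Type) [Ring S]
  [Algebra (ZMod (p ^ N)) S] (J : Submodule (ZMod (p ^ N)) S) (H : Subgroup Sˣ), Finite H →
  Uni p N c J H → ∀ h : Submodule (ZMod (p ^ N)) S, h ≤ LHm p N J H →
  (∀ x ∈ h, ∀ y ∈ h, x * y - y * x ∈ h) →
  ∀ x ∈ h, ∀ y ∈ h, ∀ z ∈ LHm p N J H, ex p N z = ex p N x * ex p N y →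
  z - x - y ∈ Submodule.span (ZMod (p ^ N)) {w | ∃ a ∈ h, ∃ b ∈ h, w = a * b - b * a}

end H42.NE
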