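import Pool.Agent.H42.NE.LEXa
import Pool.Agent.H42.NE.Stm
import Pool.Agent.H2.KL.Stm3

/-! # NE / LEX: `H2.KL.S_LAZ` -/

set_option autoImplicit false

open Finset

namespace H42.NE.KIRaux
open H6.NE

variable {p N c : ℕ} {S : Type} [Ring S] [Algebra (ZMod (p ^ N)) S] {K : Type} [Group K]
  {J : Submodule (ZMod (p ^ N)) S} {F : Subgroup Sˣ} {q : Submodule (ZMod (p ^ N)) S} {π : F →* K}

/-- additive subgroups are submodules -/
def sbm {M : Type} [AddCommGroup M] [Module (ZMod (p ^ N)) M] (h : AddSubgroup M) :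
    Submodule (ZMod (p ^ N)) M := AddSubgroup.toZModSubmodule (p ^ N) h

theorem mem_sbm {M : Type} [AddCommGroup M] [Module (ZMod (p ^ N)) M] (h : AddSubgroup M) (x : M) :
    x ∈ (sbm h : Submodule (ZMod (p ^ N)) M) ↔ x ∈ h := Iff.rfl

theorem bt_range [Fact p.Prime] (hEX : S_EX) (D : KD J F π q) (hJ : J * J ≤ J) (hc : c < p)
    (hn : J ^ (c + 1) = ⊥) (hLJ : LHm p N J F ≤ J) (z : Kf J F q) :
    ∃ W : (Module.End (ZMod (p ^ N)) (Kf J F q))ˣ, ∀ w,
      AdK D (eK D z) w - w = bt D z ((W : Module.End (ZMod (p ^ N)) (Kf J F q)) w) ∧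
      bt D z ((W : Module.End (ZMod (p ^ N)) (Kf J F q)) w) =
        (W : Module.End (ZMod (p ^ N)) (Kf J F q)) (bt D z w) := by
  obtain ⟨W, hW1, hW2⟩ := ex_sub_one (N := N) (p := p)
    (bt D z : Module.End (ZMod (p ^ N)) (Kf J F q)) (bt_nil D hn hLJ z)
    (Fact.out : p.Prime).two_le
  refine ⟨W, fun w => ⟨?_, ?_⟩⟩
  · rw [AdK_ex hEX D hJ hc hn hLJ]
    have := LinearMap.congr_fun hW2 w
    rw [LinearMap.sub_apply, Module.End.one_apply, Module.End.mul_apply] at this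
    exact this
  · have := LinearMap.congr_fun hW1 w
    rw [Module.End.mul_apply, Module.End.mul_apply] at this
    exact this.symm

theorem bt_comm [Fact p.Prime] (hEX : S_EX) (D : KD J F π q) (hJ : J * J ≤ J) (hc : c < p)
    (hn : J ^ (c + 1) = ⊥) (hLJ : LHm p N J F ≤ J) (x y : Kf J F q)
    (h : eK D x * eK D y = eK D y * eK D x) : bt D x y = 0 := by
  obtain ⟨W, hW⟩ := bt_range hEX D hJ hc hn hLJ x
  have h1 : AdK D (eK D x) y = y := by
    apply (eK D).injective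
    rw [e_AdK, h]
    group
  have h2 := (hW y).1
  rw [h1, sub_self, (hW y).2] at h2
  have h3 : ((W⁻¹ : (Module.End (ZMod (p ^ N)) (Kf J F q))ˣ) : Module.End (ZMod (p ^ N)) (Kf J F q))
      ((W : Module.End (ZMod (p ^ N)) (Kf J F q)) (bt D x y)) = bt D x y := by
    rw [← Module.End.mul_apply, Units.inv_mul, Module.End.one_apply]
  rw [← h3, ← h2, map_zero]

theorem bt_stab [Fact p.Prime] (hEX : S_EX) (hV : S_VDM) (hNOD : S_NOD) (hN : 0 < N)
    (D : KD J F π q) (hJ : J * J ≤ J) (hc : c < p)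
    (hn : J ^ (c + 1) = ⊥) (hLJ : LHm p N J F ≤ J) (M : AddSubgroup (Kf J F q)) (x : Kf J F q)
    (h : ∀ w ∈ M, AdK D (eK D x) w ∈ M) : ∀ w ∈ M, bt D x w ∈ M := by
  intro w hw
  have hpow : ∀ n : ℕ, ∀ w ∈ M, AdK D ((eK D x) ^ n) w ∈ M := by
    intro n
    induction n with
    | zero => intro w hw; rw [pow_zero, AdK_one]; exact hw
    | succ n ih =>
      intro w hw
      rw [pow_succ, AdK_mul]
      exact ih _ (h w hw)
  obtain ⟨hN1, hN2, -, -⟩ := hNOD p N hN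
  have hp2 := (Fact.out : p.Prime).two_le
  have key := hV p N (Kf J F q) (sbm M) p
    (fun j => ((j.factorial : ZMod (p ^ N))⁻¹) •
      ((bt D x : Module.End (ZMod (p ^ N)) (Kf J F q)) ^ j) w)
    ((Finset.range p).image (fun i : ℕ => (i : ZMod (p ^ N)))) hN1 (by rw [hN2]) (by
      intro s hs
      obtain ⟨n, -, rfl⟩ := Finset.mem_image.mp hs
      have h1 := hpow n w hw
      rw [← eK_nsmul hEX D hJ hc hn hLJ, AdK_ex hEX D hJ hc hn hLJ, ex_apply] at h1
      rw [mem_sbm]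
      convert h1 using 2 with j
      rw [map_smul, smul_pow, LinearMap.smul_apply, smul_smul, smul_smul, mul_comm]) 1 (by omega)
  rw [mem_sbm] at key
  simpa using key

theorem mul_mem [Fact p.Prime] (hSUB : S_SUB) (hN : 0 < N) [Finite F] (huni : Uni p N c J F)
    (D : KD J F π q) (h : AddSubgroup (Kf J F q)) (hh : ∀ x ∈ h, ∀ y ∈ h, bt D x y ∈ h)
    (x : Kf J F q) (hx : x ∈ h) (y : Kf J F q) (hy : y ∈ h) :
    (eK D).symm (eK D x * eK D y) - x - y ∈
      AddSubgroup.closure {w | ∃ a ∈ h, ∃ b ∈ h, w = bt D a b} := by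
  obtain ⟨x, rfl⟩ := mk_surj x
  obtain ⟨y, rfl⟩ := mk_surj y
  obtain ⟨a, ha⟩ := D.exx x x.2
  obtain ⟨b, hb⟩ := D.exx y y.2
  obtain ⟨z, hz, hz2⟩ := D.lg (a * b)
  have h1 : eK D (mk J F q ⟨z, hz⟩) = eK D (mk J F q x) * eK D (mk J F q y) := by
    rw [eK_mk D ⟨z, hz⟩ (a * b) hz2, eK_mk D x a ha, eK_mk D y b hb, map_mul]
  rw [← h1, Equiv.symm_apply_apply, ← map_sub, ← map_sub]
  set hS : Submodule (ZMod (p ^ N)) S :=
    ((sbm h : Submodule (ZMod (p ^ N)) (Kf J F q)).comap (mk J F q)).map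
      (LHm p N J F).subtype with hhS
  have hmem : ∀ u : S, u ∈ hS ↔ ∃ hu : u ∈ LHm p N J F, mk J F q ⟨u, hu⟩ ∈ h := by
    intro u
    rw [hhS, Submodule.mem_map]
    constructor
    · rintro ⟨v, hv, rfl⟩
      exact ⟨v.2, hv⟩
    · rintro ⟨hu, hu2⟩
      exact ⟨⟨u, hu⟩, hu2, rfl⟩
  have h2 := hSUB p N c hN S J F inferInstance huni hS (by
      intro u hu
      exact ((hmem u).mp hu).1) (by
      intro u hu v hv
      obtain ⟨hu1, hu2⟩ := (hmem u).mp hu
      obtain ⟨hv1, hv2⟩ := (hmem v).mp hv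
      rw [hmem]
      exact ⟨D.brk u hu1 v hv1, hh _ hu2 _ hv2⟩) (x : S) ((hmem x).mpr ⟨x.2, hx⟩) (y : S)
      ((hmem y).mpr ⟨y.2, hy⟩) z hz (by rw [← hz2, ← ha, ← hb]; simp)
  set E : Submodule (ZMod (p ^ N)) S :=
    ((sbm (AddSubgroup.closure {w | ∃ a ∈ h, ∃ b ∈ h, w = bt D a b}) :
      Submodule (ZMod (p ^ N)) (Kf J F q)).comap (mk J F q)).map (LHm p N J F).subtype with hE
  have hle : Submodule.span (ZMod (p ^ N)) {w | ∃ a ∈ hS, ∃ b ∈ hS, w = a * b - b * a} ≤ E := by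
    rw [Submodule.span_le]
    rintro w ⟨u, hu, v, hv, rfl⟩
    obtain ⟨hu1, hu2⟩ := (hmem u).mp hu
    obtain ⟨hv1, hv2⟩ := (hmem v).mp hv
    refine ⟨⟨u * v - v * u, D.brk u hu1 v hv1⟩, ?_, rfl⟩
    exact AddSubgroup.subset_closure ⟨_, hu2, _, hv2, rfl⟩
  obtain ⟨v, hv, hv2⟩ := hle h2
  have h3 : v = (⟨z, hz⟩ : LHm p N J F) - x - y := by
    apply Subtype.ext
    exact hv2
  rw [← h3]
  exact hv

end H42.NE.KIRaux

namespace H42.NE
open H6.NE KIRaux

theorem t_LAZ (hLZ : S_LZ) (hEX : S_EX) (hLH1 : S_LH1) (hLH2 : S_LH2) (hV : S_VDM) (hNOD : S_NOD)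
    (hSUB : S_SUB) : H2.KL.S_LAZ := by
  intro p N c _ hN hc0 hcp K _ _ hlc hcard
  obtain ⟨S, _, _, J, F, π, hF, huni, hsurj⟩ := hLZ p N c hc0 hcp K hlc hcard
  obtain ⟨l1, l2, l3, l4, l5, l6⟩ := hLH1 p N c hN S J F huni
  set Q : Subgroup Sˣ := (π.ker).map F.subtype with hQ
  have hQF : Q ≤ F := by
    rintro _ ⟨g, -, rfl⟩
    exact g.2
  have hQn : ∀ h ∈ F, ∀ r ∈ Q, h * r * h⁻¹ ∈ Q := by
    rintro h hh _ ⟨g, hg, rfl⟩
    refine ⟨⟨h, hh⟩ * g * ⟨h, hh⟩⁻¹, ?_, rfl⟩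
    have hg' : π g = 1 := hg
    change π _ = 1
    rw [map_mul, map_mul, hg', map_inv]
    simp
  obtain ⟨m1, m2, -⟩ := hLH2 p N c hN S J F Q huni hQF hQn
  have hEc := hEX p N c S J huni.mul huni.lt huni.nil
  have D : KD J F π (LHm p N J Q) := by
    refine ⟨hsurj, ?_, ?_, ?_, ?_, l3, (l6 Q hQF).1, ?_, m2⟩
    · intro g
      obtain ⟨x, ⟨hx1, hx2⟩, -⟩ := l4 g g.2
      exact ⟨x, hx1, hx2.symm⟩
    · intro x hx
      obtain ⟨-, h, hh, he⟩ := (l1 x).mp hx
      exact ⟨⟨h, hh⟩, he⟩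
    · intro x hx h
      have := l2 x hx ((h : Sˣ)⁻¹) (F.inv_mem h.2)
      rw [inv_inv] at this
      exact this
    · intro x h
      have := hEc.2.2.2.2.2.1 h⁻¹ x
      rw [inv_inv] at this
      exact this
    · intro x hx y hy a b ha hb
      rw [← m1 x hx y hy a b ha hb]
      constructor
      · intro h
        refine ⟨a⁻¹ * b, ?_, rfl⟩
        change π _ = 1
        rw [map_mul, map_inv, h, inv_mul_cancel]
      · rintro ⟨g, hg, hg2⟩
        have hg' : π g = 1 := hg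
        have h2 : g = a⁻¹ * b := by
          apply Subtype.ext
          exact hg2
        rw [h2, map_mul, map_inv] at hg'
        exact (inv_mul_eq_one.mp hg')
  have hLJ : LHm p N J F ≤ J := by
    intro x hx
    exact ((l1 x).mp hx).1
  have hFL : Finite (LHm p N J F) := by
    apply Nat.finite_of_card_ne_zero
    rw [l5]
    exact Nat.card_ne_zero.mpr ⟨⟨1⟩, hF⟩
  have : Finite (Kf J F (LHm p N J Q)) := Finite.of_surjective _ (mk_surj' (J := J) (F := F))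
  have hn := huni.nil
  have hJ := huni.mul
  -- the structure
  letI : LieRing (Kf J F (LHm p N J Q)) := lieR D
  have hrange : ∀ x : Kf J F (LHm p N J Q), Set.range (fun w => ⁅x, w⁆) =
      Set.range (fun w => AdK D (eK D x) w - w) := by
    intro x
    obtain ⟨W, hW⟩ := bt_range hEX D hJ hcp hn hLJ x
    ext w
    constructor
    · rintro ⟨u, rfl⟩
      refine ⟨((W⁻¹ : (Module.End (ZMod (p ^ N)) (Kf J F (LHm p N J Q)))ˣ) :
        Module.End (ZMod (p ^ N)) (Kf J F (LHm p N J Q))) u, ?_⟩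
      change AdK D (eK D x) _ - _ = bt D x u
      have hWW : (W : Module.End (ZMod (p ^ N)) (Kf J F (LHm p N J Q)))
          (((W⁻¹ : (Module.End (ZMod (p ^ N)) (Kf J F (LHm p N J Q)))ˣ) :
            Module.End (ZMod (p ^ N)) (Kf J F (LHm p N J Q))) u) = u := by
        rw [← Module.End.mul_apply, Units.mul_inv, Module.End.one_apply]
      rw [(hW _).1, hWW]
    · rintro ⟨u, rfl⟩
      refine ⟨(W : Module.End (ZMod (p ^ N)) (Kf J F (LHm p N J Q))) u, ?_⟩
      change bt D x _ = AdK D (eK D x) _ - _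
      rw [(hW _).1]
  have hnil : ∀ n : ℕ, ∀ z ∈ H2.KL.lcs (Kf J F (LHm p N J Q)) n,
      ∃ x : LHm p N J F, (x : S) ∈ J ^ (n + 1) ∧ mk J F (LHm p N J Q) x = z := by
    intro n
    induction n with
    | zero =>
      intro z _
      obtain ⟨x, rfl⟩ := mk_surj z
      exact ⟨x, by simpa using hLJ x.2, rfl⟩
    | succ n ih =>
      intro z hz
      refine AddSubgroup.closure_induction (p := fun z _ => ∃ x : LHm p N J F,
        (x : S) ∈ J ^ (n + 1 + 1) ∧ mk J F (LHm p N J Q) x = z) ?_ ?_ ?_ ?_ hz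
      · rintro _ ⟨a, b, hb, rfl⟩
        obtain ⟨y, hy, rfl⟩ := ih b hb
        obtain ⟨x, rfl⟩ := mk_surj a
        refine ⟨⟨(x : S) * y - y * x, D.brk x x.2 y y.2⟩, ?_, rfl⟩
        apply Submodule.sub_mem
        · rw [pow_succ' J (n + 1)]
          exact Submodule.mul_mem_mul (hLJ x.2) hy
        · rw [pow_succ J (n + 1)]
          exact Submodule.mul_mem_mul hy (hLJ x.2)
      · exact ⟨0, by simp, map_zero _⟩
      · rintro _ _ _ _ ⟨x, hx, rfl⟩ ⟨y, hy, rfl⟩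
        exact ⟨x + y, Submodule.add_mem _ hx hy, map_add _ _ _⟩
      · rintro _ _ ⟨x, hx, rfl⟩
        exact ⟨-x, Submodule.neg_mem _ hx, map_neg _ _⟩
  let L : H2.KL.LExp K (Kf J F (LHm p N J Q)) :=
    { e := eK D
      Ad := fun k => AdK D k
      e_zero := eK_zero D
      e_neg := eK_neg hEX D hJ hcp hn hLJ
      e_Ad := e_AdK D
      mul := fun h hh x hx y hy => mul_mem hSUB hN huni D h hh x hx y hy
      range_ad := hrange
      nil := ⟨c, by
        rw [eq_bot_iff]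
        intro z hz
        obtain ⟨x, hx, rfl⟩ := hnil c z hz
        rw [hn, Submodule.mem_bot] at hx
        have : x = 0 := Subtype.ext hx
        rw [this, map_zero]
        exact AddSubgroup.zero_mem _⟩ }
  refine ⟨Kf J F (LHm p N J Q), lieR D, inferInstance, L, ?_, ?_, ?_⟩
  · intro x
    have h1 : ((p ^ N : ℕ) : ZMod (p ^ N)) • x = (p ^ N) • x := Nat.cast_smul_eq_nsmul _ _ _
    have h2 : ((p ^ N : ℕ) : ZMod (p ^ N)) = 0 := ZMod.natCast_self _
    rw [h2, zero_smul] at h1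
    exact h1.symm
  · intro x y h
    exact bt_comm hEX D hJ hcp hn hLJ x y h
  · intro M x h w hw
    exact bt_stab hEX hV hNOD hN D hJ hcp hn hLJ M x h w hw

end H42.NE
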