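import Pool.Agent.H42.NE.KIRb

/-! # NE / LEX: `Ad (ex x) = exp (ad x)` -/

set_option autoImplicit false

open Finset

namespace H42.NE.KIRaux
open H6.NE

variable {p N c : ℕ} {S : Type} [Ring S] [Algebra (ZMod (p ^ N)) S]

theorem pow_anti {J : Submodule (ZMod (p ^ N)) S} (hJ : J * J ≤ J) (k : ℕ) (hk : 1 ≤ k) :
    J ^ (k + 1) ≤ J ^ k := by
  obtain ⟨k, rfl⟩ : ∃ j, k = j + 1 := ⟨k - 1, by omega⟩
  have h1 : J ^ (k + 1 + 1) = J ^ k * (J * J) := by rw [pow_succ, pow_succ, mul_assoc]
  rw [h1, pow_succ]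
  exact mul_le_mul_right hJ _

theorem pow_le_self {J : Submodule (ZMod (p ^ N)) S} (hJ : J * J ≤ J) (k : ℕ) (hk : 1 ≤ k) :
    J ^ k ≤ J := by
  induction k with
  | zero => omega
  | succ k ih =>
    rcases Nat.eq_zero_or_pos k with h0 | h0
    · subst h0; simp
    · exact (pow_anti hJ k h0).trans (ih h0)

/-- operators on `J` raising the filtration by `n` -/
def Fil (J : Submodule (ZMod (p ^ N)) S) (n : ℕ) :
    Submodule (ZMod (p ^ N)) (Module.End (ZMod (p ^ N)) J) where
  carrier := {T | ∀ m, 1 ≤ m → ∀ w : J, (w : S) ∈ J ^ m → (T w : S) ∈ J ^ (m + n)}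
  add_mem' := by
    intro A B hA hB m hm w hw
    have := Submodule.add_mem _ (hA m hm w hw) (hB m hm w hw)
    simpa using this
  zero_mem' := by
    intro m _ w _
    simp
  smul_mem' := by
    intro a A hA m hm w hw
    have := Submodule.smul_mem _ a (hA m hm w hw)
    simpa using this

theorem fil_mul (J : Submodule (ZMod (p ^ N)) S) (a b : ℕ) :
    Fil J a * Fil J b ≤ Fil J (b + a) := by
  rw [Submodule.mul_le]
  intro A hA B hB m hm w hw
  have h1 := hB m hm w hw
  have h2 := hA (m + b) (by omega) (B w) h1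
  rw [Module.End.mul_apply, ← add_assoc]
  exact h2

theorem fil_pow (J : Submodule (ZMod (p ^ N)) S) (n : ℕ) : (Fil J 1) ^ n ≤ Fil J n := by
  induction n with
  | zero =>
    rw [pow_zero, Submodule.one_le]
    intro m _ w hw
    simpa using hw
  | succ n ih =>
    rw [pow_succ]
    exact (mul_le_mul_left ih _).trans ((fil_mul J n 1).trans (by rw [add_comm]))

theorem fil_anti {J : Submodule (ZMod (p ^ N)) S} (hJ : J * J ≤ J) : Fil J 2 ≤ Fil J 1 := by
  intro A hA m hm w hw
  exact pow_anti hJ (m + 1) (by omega) (hA m hm w hw)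

theorem fil_bot {J : Submodule (ZMod (p ^ N)) S} (hn : J ^ (c + 1) = ⊥) :
    Fil J (c + 1) = ⊥ := by
  rw [eq_bot_iff]
  intro A hA
  rw [Submodule.mem_bot]
  apply LinearMap.ext
  intro w
  apply Subtype.ext
  have h1 := hA 1 le_rfl w (by simp)
  have h2 : J ^ (1 + (c + 1)) = ⊥ := by rw [pow_add, hn, Submodule.mul_bot]
  rw [h2, Submodule.mem_bot] at h1
  rw [h1]; rfl

theorem fil_ex_hyp {J : Submodule (ZMod (p ^ N)) S} (hJ : J * J ≤ J) (hn : J ^ (c + 1) = ⊥) :
    Fil J 1 * Fil J 1 ≤ Fil J 1 ∧ (Fil J 1) ^ (c + 1) = ⊥ := by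
  constructor
  · exact (fil_mul J 1 1).trans (fil_anti hJ)
  · rw [eq_bot_iff, ← fil_bot hn]
    exact fil_pow J (c + 1)

/-- left multiplication on `J` -/
def lx {J : Submodule (ZMod (p ^ N)) S} (hJ : J * J ≤ J) (x : S) (hx : x ∈ J) :
    Module.End (ZMod (p ^ N)) J where
  toFun w := ⟨x * w, hJ (Submodule.mul_mem_mul hx w.2)⟩
  map_add' := by
    intro a b
    apply Subtype.ext
    simp [mul_add]
  map_smul' := by
    intro a b
    apply Subtype.ext
    simp

/-- right multiplication on `J` -/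
def rx {J : Submodule (ZMod (p ^ N)) S} (hJ : J * J ≤ J) (x : S) (hx : x ∈ J) :
    Module.End (ZMod (p ^ N)) J where
  toFun w := ⟨w * x, hJ (Submodule.mul_mem_mul w.2 hx)⟩
  map_add' := by
    intro a b
    apply Subtype.ext
    simp [add_mul]
  map_smul' := by
    intro a b
    apply Subtype.ext
    simp

/-- `ad x` on `S` -/
def adS (x : S) : Module.End (ZMod (p ^ N)) S where
  toFun w := x * w - w * x
  map_add' := by
    intro a b
    noncomm_ring
  map_smul' := by
    intro a b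
    simp [smul_sub]

theorem lx_pow {J : Submodule (ZMod (p ^ N)) S} (hJ : J * J ≤ J) (x : S) (hx : x ∈ J) (i : ℕ)
    (w : J) : (((lx hJ x hx) ^ i) w : S) = x ^ i * w := by
  induction i generalizing w with
  | zero => simp
  | succ i ih =>
    rw [pow_succ, Module.End.mul_apply, ih, pow_succ, mul_assoc]
    rfl

theorem rx_pow {J : Submodule (ZMod (p ^ N)) S} (hJ : J * J ≤ J) (x : S) (hx : x ∈ J) (i : ℕ)
    (w : J) : (((rx hJ x hx) ^ i) w : S) = w * x ^ i := by
  induction i generalizing w with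
  | zero => simp
  | succ i ih =>
    rw [pow_succ, Module.End.mul_apply, ih, pow_succ', ← mul_assoc]
    rfl

theorem ex_apply {M : Type} [AddCommGroup M] [Module (ZMod (p ^ N)) M]
    (T : Module.End (ZMod (p ^ N)) M) (w : M) :
    (ex p N T) w = ∑ i ∈ Finset.range p, ((i.factorial : ZMod (p ^ N))⁻¹) • (T ^ i) w := by
  unfold ex
  rw [LinearMap.sum_apply]
  rfl

theorem conj_eq [Fact p.Prime] (hEX : S_EX) {J : Submodule (ZMod (p ^ N)) S} (hJ : J * J ≤ J)
    (hc : c < p) (hn : J ^ (c + 1) = ⊥) (x : S) (hx : x ∈ J) (w : S) (hw : w ∈ J) (h : Sˣ)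
    (hh : (h : S) = ex p N x) :
    (h : S) * w * ((h⁻¹ : Sˣ) : S) =
      ∑ i ∈ Finset.range p, ((i.factorial : ZMod (p ^ N))⁻¹) • ((adS (p := p) (N := N) x) ^ i) w := by
  classical
  have hnx : -x ∈ J := Submodule.neg_mem _ hx
  -- the inverse
  have hE := hEX p N c S J hJ hc hn
  have hinv : ((h⁻¹ : Sˣ) : S) = ex p N (-x) := by
    have h1 := hE.1 x hx (-x) hnx (Commute.neg_right (Commute.refl x))
    have h0 : ex p N (0 : S) = 1 := by
      rcases ex_zero (p := p) (N := N) (S := S) with h | h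
      · exact h
      · exact absurd h (Fact.out : p.Prime).ne_zero
    rw [add_neg_cancel, h0, ← hh] at h1
    have h2 : ((h⁻¹ : Sˣ) : S) * ((h : S) * ex p N (-x)) = ((h⁻¹ : Sˣ) : S) := by
      rw [← h1, mul_one]
    rw [← mul_assoc, Units.inv_mul, one_mul] at h2
    exact h2.symm
  obtain ⟨hf1, hf2⟩ := fil_ex_hyp (c := c) hJ hn
  have hF := hEX p N c (Module.End (ZMod (p ^ N)) J) (Fil J 1) hf1 hc hf2
  set A := lx hJ x hx with hA
  set B := rx hJ (-x) hnx with hB
  have hAm : A ∈ Fil J 1 := by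
    intro m hm u hu
    rw [add_comm, pow_add, pow_one]
    exact Submodule.mul_mem_mul hx hu
  have hBm : B ∈ Fil J 1 := by
    intro m hm u hu
    rw [pow_add, pow_one]
    exact Submodule.mul_mem_mul hu hnx
  have hcom : Commute A B := by
    apply LinearMap.ext
    intro u
    apply Subtype.ext
    change x * ((u : S) * (-x)) = x * u * (-x)
    rw [mul_assoc]
  have h1 := hF.1 A hAm B hBm hcom
  have h2 : ((ex p N (A + B)) ⟨w, hw⟩ : J) = (ex p N A * ex p N B) ⟨w, hw⟩ := by rw [h1]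
  have h3 : (((ex p N A * ex p N B) ⟨w, hw⟩ : J) : S) = (h : S) * w * ((h⁻¹ : Sˣ) : S) := by
    rw [Module.End.mul_apply, ex_apply, ex_apply]
    rw [hh, hinv]
    unfold ex
    rw [mul_assoc, Finset.mul_sum, Finset.sum_mul, AddSubmonoidClass.coe_finsetSum]
    refine Finset.sum_congr rfl fun i _ => ?_
    rw [Submodule.coe_smul, lx_pow, smul_mul_assoc]
    congr 2
    rw [AddSubmonoidClass.coe_finsetSum]
    refine Finset.sum_congr rfl fun j _ => ?_
    rw [Submodule.coe_smul, rx_pow, mul_smul_comm]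
  have h4 : (((ex p N (A + B)) ⟨w, hw⟩ : J) : S) =
      ∑ i ∈ Finset.range p, ((i.factorial : ZMod (p ^ N))⁻¹) •
        ((adS (p := p) (N := N) x) ^ i) w := by
    rw [ex_apply, AddSubmonoidClass.coe_finsetSum]
    refine Finset.sum_congr rfl fun i _ => ?_
    rw [Submodule.coe_smul]
    congr 1
    have key : ∀ (i : ℕ) (u : J), ((((A + B) ^ i) u : J) : S) =
        ((adS (p := p) (N := N) x) ^ i) (u : S) := by
      intro i
      induction i with
      | zero => intro u; simp
      | succ i ih =>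
        intro u
        rw [pow_succ, Module.End.mul_apply, ih, pow_succ, Module.End.mul_apply]
        congr 1
        change x * (u : S) + (u : S) * (-x) = x * u - u * x
        rw [mul_neg, sub_eq_add_neg]
    exact key i ⟨w, hw⟩
  rw [← h3, ← h4, h2]

/-- a nilpotent operator: `exp T - 1 = T * unit` -/
theorem ex_sub_one [Fact p.Prime] {A : Type} [Ring A] [Algebra (ZMod (p ^ N)) A] (T : A)
    (hT : IsNilpotent T) (hp : 2 ≤ p) : ∃ w : Aˣ, Commute (w : A) T ∧ ex p N T - 1 = T * (w : A) := by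
  set P : A := ∑ i ∈ Finset.range (p - 2), (((i + 2).factorial : ZMod (p ^ N))⁻¹) • T ^ i with hP
  have hPT : Commute T P := by
    rw [hP]
    exact Commute.sum_right _ _ _ (fun i _ => ((Commute.refl T).pow_right i).smul_right _)
  have hnil : IsNilpotent (T * P) := hPT.isNilpotent_mul_right hT
  have hu : IsUnit (1 + T * P) := hnil.isUnit_one_add
  obtain ⟨w, hw⟩ := hu
  refine ⟨w, ?_, ?_⟩
  · rw [hw]
    exact (Commute.one_left T).add_left ((Commute.refl T).mul_left hPT.symm)
  · rw [hw, hP]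
    unfold ex
    obtain ⟨k, rfl⟩ : ∃ k, p = k + 2 := ⟨p - 2, by omega⟩
    rw [Finset.sum_range_succ', Finset.sum_range_succ']
    simp only [Nat.add_sub_cancel]
    have h1 : ((Nat.factorial (0 + 1) : ZMod ((k + 2) ^ N))⁻¹) • T ^ (0 + 1) = T := by
      simp
    have h0 : ((Nat.factorial 0 : ZMod ((k + 2) ^ N))⁻¹) • T ^ 0 = (1 : A) := by
      simp
    rw [h1, h0, add_sub_cancel_right, mul_add, mul_one, add_comm]
    congr 1
    rw [← mul_assoc, Finset.mul_sum]
    refine Finset.sum_congr rfl fun i _ => ?_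
    rw [mul_smul_comm]
    congr 1
    rw [pow_succ', pow_succ', mul_assoc]

end H42.NE.KIRaux
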