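import Pool.Agent.H6.NE.Stm3

/-! # NE / KIR: auxiliary lemmas -/

set_option autoImplicit false

open Finset

namespace H42.NE.KIRaux
open H6.NE

theorem irr_iff {G V : Type} [Group G] [AddCommGroup V] [Module ℂ V] (ρ : Representation ℂ G V) :
    ρ.IsIrreducible ↔ (Nontrivial V ∧
      ∀ U : Submodule ℂ V, (∀ g, ∀ v ∈ U, ρ g v ∈ U) → U = ⊥ ∨ U = ⊤) := by
  constructor
  · intro h
    haveI := h
    constructor
    · obtain ⟨a, b, hab⟩ := exists_pair_ne (Subrepresentation ρ)
      by_contra hn
      rw [not_nontrivial_iff_subsingleton] at hn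
      apply hab
      apply Subrepresentation.toSubmodule_injective
      exact Subsingleton.elim _ _
    · intro U hU
      rcases eq_bot_or_eq_top (⟨U, fun g v hv => hU g v hv⟩ : Subrepresentation ρ) with h | h
      · left
        have := congrArg Subrepresentation.toSubmodule h
        exact this
      · right
        have := congrArg Subrepresentation.toSubmodule h
        exact this
  · rintro ⟨h1, h2⟩
    haveI : Nontrivial (Subrepresentation ρ) := by
      refine ⟨⟨⊥, ⊤, ?_⟩⟩
      intro h
      have h3 : (⊥ : Submodule ℂ V) = ⊤ := congrArg Subrepresentation.toSubmodule h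
      exact bot_ne_top h3
    refine ⟨fun a => ?_⟩
    rcases h2 a.toSubmodule (fun g v hv => a.apply_mem_toSubmodule g hv) with h | h
    · left
      exact Subrepresentation.toSubmodule_injective h
    · right
      exact Subrepresentation.toSubmodule_injective h

/-- eigenvector from a non-zero scalar product -/
theorem eig_exists {A W : Type} [Group A] [Fintype A] [AddCommGroup W] [Module ℂ W]
    [FiniteDimensional ℂ W] (rep : Representation ℂ A W) (t : A → ℂ) (ht1 : t 1 = 1)
    (htm : ∀ a b, t (a * b) = t a * t b)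
    (hne : ∑ a : A, t a⁻¹ * LinearMap.trace ℂ W (rep a) ≠ 0) :
    ∃ w : W, w ≠ 0 ∧ ∀ a, rep a w = t a • w := by
  classical
  set P : W →ₗ[ℂ] W := ∑ a : A, t a⁻¹ • rep a with hP
  have hPne : P ≠ 0 := by
    intro h0
    apply hne
    have : LinearMap.trace ℂ W P = 0 := by rw [h0, map_zero]
    rw [hP, map_sum] at this
    rw [← this]
    refine Finset.sum_congr rfl fun a _ => ?_
    rw [map_smul, smul_eq_mul]
  obtain ⟨v, hv⟩ : ∃ v, P v ≠ 0 := by
    by_contra hcon
    push Not at hcon
    exact hPne (LinearMap.ext hcon)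
  refine ⟨P v, hv, fun b => ?_⟩
  have hPv : ∀ v, P v = ∑ a : A, t a⁻¹ • rep a v := by
    intro v
    rw [hP, LinearMap.sum_apply]
    rfl
  rw [hPv, map_sum, Finset.smul_sum]
  refine Fintype.sum_equiv (Equiv.mulLeft b) _ _ (fun a => ?_)
  rw [map_smul, Equiv.coe_mulLeft, smul_smul, map_mul, Module.End.mul_apply]
  congr 1
  rw [mul_inv_rev, htm, mul_comm (t b), mul_assoc, ← htm, inv_mul_cancel, ht1, mul_one]

/-- character sums -/
theorem sum_char {A : Type} [Group A] [Fintype A] (t : A → ℂ) (ht1 : t 1 = 1)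
    (htm : ∀ a b, t (a * b) = t a * t b) : (∑ a : A, t a = 0) ∨ (∑ a : A, t a = Fintype.card A) := by
  classical
  by_cases h : ∀ a, t a = 1
  · right
    simp [h]
  · left
    push Not at h
    obtain ⟨b, hb⟩ := h
    have h1 : ∑ a : A, t a = t b * ∑ a : A, t a := by
      rw [Finset.mul_sum]
      refine (Fintype.sum_equiv (Equiv.mulLeft b) _ _ (fun a => ?_)).symm
      rw [Equiv.coe_mulLeft, htm]
    have h2 : (t b - 1) * ∑ a : A, t a = 0 := by
      rw [sub_mul, one_mul, ← h1, sub_self]
    rcases mul_eq_zero.mp h2 with h3 | h3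
    · exact absurd (sub_eq_zero.mp h3) hb
    · exact h3

theorem norm_psi (n : ℕ) [NeZero n] (t : ZMod n) : ‖(ZMod.stdAddChar (N := n) t : ℂ)‖ = 1 := by
  rw [ZMod.stdAddChar_apply]
  exact Circle.norm_coe _

theorem psi_eq_one (n : ℕ) [NeZero n] (t : ZMod n) (h : (ZMod.stdAddChar (N := n) t : ℂ) = 1) :
    t = 0 := by
  have h2 : (ZMod.stdAddChar (N := n) t : ℂ) = ZMod.stdAddChar (N := n) 0 := by
    rw [h, AddChar.map_zero_eq_one]
  exact ZMod.injective_stdAddChar h2

/-- if the average of unimodular numbers is `1`, all are `1` -/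
theorem all_one {ι : Type} [Fintype ι] (z : ι → ℂ) (h1 : ∀ i, ‖z i‖ = 1)
    (h2 : ∑ i, z i = Fintype.card ι) : ∀ i, z i = 1 := by
  have h3 : ∑ i, (1 - (z i).re) = 0 := by
    rw [Finset.sum_sub_distrib]
    have : (∑ i, z i).re = (Fintype.card ι : ℂ).re := by rw [h2]
    rw [Complex.re_sum, Complex.natCast_re] at this
    rw [this]
    simp
  have h4 : ∀ i ∈ Finset.univ, 0 ≤ 1 - (z i).re := by
    intro i _
    have := Complex.re_le_norm (z i)
    rw [h1 i] at this
    linarith
  rw [Finset.sum_eq_zero_iff_of_nonneg h4] at h3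
  intro i
  have h5 := h3 i (Finset.mem_univ i)
  have h6 : (z i).re = 1 := by linarith
  have h7 : (z i).re ^ 2 + (z i).im ^ 2 = 1 := by
    have := Complex.sq_norm (z i)
    rw [h1 i, Complex.normSq_apply] at this
    nlinarith
  rw [h6] at h7
  have h8 : (z i).im = 0 := by nlinarith
  exact Complex.ext (by simpa using h6) (by simpa using h8)

end H42.NE.KIRaux
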