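import Pool.Agent.H42.NE.KIRa

/-! # NE / KIR: the Lie ring `L / q` -/

set_option autoImplicit false

open Finset

namespace H42.NE.KIRaux
open H6.NE

variable {p N : ℕ} {S : Type} [Ring S] [Algebra (ZMod (p ^ N)) S] {K : Type} [Group K]

/-- the facts we use -/
structure KD (J : Submodule (ZMod (p ^ N)) S) (F : Subgroup Sˣ) (π : F →* K)
    (q : Submodule (ZMod (p ^ N)) S) : Prop where
  surj : Function.Surjective π
  lg : ∀ g : F, ∃ x ∈ LHm p N J F, ((g : Sˣ) : S) = ex p N x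
  exx : ∀ x ∈ LHm p N J F, ∃ g : F, ((g : Sˣ) : S) = ex p N x
  conj : ∀ x ∈ LHm p N J F, ∀ h : F,
    ((((h : Sˣ))⁻¹ : Sˣ) : S) * x * ((h : Sˣ) : S) ∈ LHm p N J F
  econj : ∀ x : S, ∀ h : Sˣ, ex p N (((h⁻¹ : Sˣ) : S) * x * (h : S)) =
    ((h⁻¹ : Sˣ) : S) * ex p N x * (h : S)
  brk : ∀ x ∈ LHm p N J F, ∀ y ∈ LHm p N J F, x * y - y * x ∈ LHm p N J F
  qle : q ≤ LHm p N J F
  qiff : ∀ x ∈ LHm p N J F, ∀ y ∈ LHm p N J F, ∀ a b : F, ((a : Sˣ) : S) = ex p N x →
    ((b : Sˣ) : S) = ex p N y → (π a = π b ↔ x - y ∈ q)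
  qbr : ∀ x ∈ LHm p N J F, ∀ y ∈ q, x * y - y * x ∈ q

variable (J : Submodule (ZMod (p ^ N)) S) (F : Subgroup Sˣ) (q : Submodule (ZMod (p ^ N)) S)

/-- the quotient -/
abbrev Kf : Type := LHm p N J F ⧸ (q.submoduleOf (LHm p N J F))

/-- class map -/
noncomputable abbrev mk : LHm p N J F →ₗ[ZMod (p ^ N)] Kf J F q :=
  (q.submoduleOf (LHm p N J F)).mkQ

variable {J F q} {π : F →* K}

theorem mk_surj (z : Kf J F q) : ∃ x : LHm p N J F, mk J F q x = z :=
  Submodule.mkQ_surjective _ z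

theorem mk_surj' : Function.Surjective (mk J F q) := Submodule.mkQ_surjective _

theorem mk_eq (x y : LHm p N J F) : mk J F q x = mk J F q y ↔ (x : S) - y ∈ q := by
  rw [Submodule.mkQ_apply, Submodule.mkQ_apply, Submodule.Quotient.eq]
  rfl

theorem ex_zero : ex p N (0 : S) = 1 ∨ p = 0 := by
  by_cases hp : p = 0
  · exact Or.inr hp
  · left
    unfold ex
    rw [Finset.sum_eq_single 0]
    · simp
    · intro i _ hi
      rw [zero_pow hi, smul_zero]
    · intro h
      exact absurd (Finset.mem_range.mpr (Nat.pos_of_ne_zero hp)) h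

/-- `q` is closed under conjugation -/
theorem KD.qconj [Fact p.Prime] (D : KD J F π q) (x : S) (hx : x ∈ q) (h : F) :
    ((((h : Sˣ))⁻¹ : Sˣ) : S) * x * ((h : Sˣ) : S) ∈ q := by
  have hxL := D.qle hx
  obtain ⟨g, hg⟩ := D.exx x hxL
  have he : ((1 : F) : Sˣ) = ex p N (0 : S) := by
    rcases ex_zero (p := p) (N := N) (S := S) with h | h
    · rw [h]; simp
    · exact absurd h (Fact.out : p.Prime).ne_zero
  have h1 : π g = π 1 := (D.qiff x hxL 0 (Submodule.zero_mem _) g 1 hg he).mpr (by simpa using hx)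
  have hc := D.conj x hxL h
  have h2 : (((h⁻¹ * g * h : F) : Sˣ) : S) = ex p N (((((h : Sˣ))⁻¹ : Sˣ) : S) * x * ((h : Sˣ) : S)) := by
    rw [D.econj, ← hg]
    simp
  have h3 := (D.qiff _ hc 0 (Submodule.zero_mem _) (h⁻¹ * g * h) 1 h2 he).mp (by
    rw [map_mul, map_mul, h1]; simp)
  simpa using h3

/-- conjugation on `L` -/
noncomputable def AdL (D : KD J F π q) (h : F) : LHm p N J F →ₗ[ZMod (p ^ N)] LHm p N J F where
  toFun x := ⟨((((h : Sˣ))⁻¹ : Sˣ) : S) * (x : S) * ((h : Sˣ) : S), D.conj x x.2 h⟩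
  map_add' := by
    intro x y
    apply Subtype.ext
    simp only [Submodule.coe_add]
    rw [mul_add, add_mul]
  map_smul' := by
    intro c x
    apply Subtype.ext
    simp only [Submodule.coe_smul, RingHom.id_apply]
    rw [mul_smul_comm, smul_mul_assoc]

/-- conjugation on `L / q` -/
noncomputable def AdQ [Fact p.Prime] (D : KD J F π q) (h : F) :
    Kf J F q →ₗ[ZMod (p ^ N)] Kf J F q :=
  Submodule.mapQ _ _ (AdL D h) (by
    intro x hx
    exact D.qconj x hx h)

theorem AdQ_mk [Fact p.Prime] (D : KD J F π q) (h : F) (x : LHm p N J F) :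
    AdQ D h (mk J F q x) = mk J F q (AdL D h x) := rfl

theorem AdQ_one [Fact p.Prime] (D : KD J F π q) (z : Kf J F q) : AdQ D 1 z = z := by
  obtain ⟨x, rfl⟩ := mk_surj z
  rw [AdQ_mk]
  congr 1
  apply Subtype.ext
  simp [AdL]

/-- bracket on `L` with values in `L / q` -/
noncomputable def B0 (D : KD J F π q) :
    LHm p N J F →ₗ[ZMod (p ^ N)] LHm p N J F →ₗ[ZMod (p ^ N)] Kf J F q :=
  LinearMap.mk₂ (ZMod (p ^ N))
    (fun x y => mk J F q ⟨(x : S) * y - y * x, D.brk x x.2 y y.2⟩)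
    (by
      intro x x' y
      rw [← map_add]
      congr 1
      apply Subtype.ext
      simp only [Submodule.coe_add]
      noncomm_ring)
    (by
      intro c x y
      rw [← map_smul]
      congr 1
      apply Subtype.ext
      simp only [Submodule.coe_smul]
      rw [smul_mul_assoc, mul_smul_comm, smul_sub])
    (by
      intro x y y'
      rw [← map_add]
      congr 1
      apply Subtype.ext
      simp only [Submodule.coe_add]
      noncomm_ring)
    (by
      intro c x y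
      rw [← map_smul]
      congr 1
      apply Subtype.ext
      simp only [Submodule.coe_smul]
      rw [smul_mul_assoc, mul_smul_comm, smul_sub])

theorem B0_apply (D : KD J F π q) (x y : LHm p N J F) :
    B0 D x y = mk J F q ⟨(x : S) * y - y * x, D.brk x x.2 y y.2⟩ := rfl

theorem B0_left (D : KD J F π q) (x y : LHm p N J F) (hx : (x : S) ∈ q) : B0 D x y = 0 := by
  rw [B0_apply, ← map_zero (mk J F q), mk_eq]
  have := D.qbr y y.2 x hx
  have h2 := Submodule.neg_mem _ this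
  simpa using h2

theorem B0_right (D : KD J F π q) (x y : LHm p N J F) (hy : (y : S) ∈ q) : B0 D x y = 0 := by
  rw [B0_apply, ← map_zero (mk J F q), mk_eq]
  have := D.qbr x x.2 y hy
  simpa using this

/-- bracket on `L / q` -/
noncomputable def bt (D : KD J F π q) :
    Kf J F q →ₗ[ZMod (p ^ N)] Kf J F q →ₗ[ZMod (p ^ N)] Kf J F q :=
  (Submodule.liftQ (q.submoduleOf (LHm p N J F))
    (Submodule.liftQ (q.submoduleOf (LHm p N J F)) (B0 D) (by
      intro x hx
      rw [LinearMap.mem_ker]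
      ext y
      exact B0_left D x y hx)).flip (by
      intro y hy
      rw [LinearMap.mem_ker]
      apply LinearMap.ext
      intro z
      obtain ⟨x, rfl⟩ := mk_surj z
      exact B0_right D x y hy)).flip

theorem bt_mk (D : KD J F π q) (x y : LHm p N J F) :
    bt D (mk J F q x) (mk J F q y) = mk J F q ⟨(x : S) * y - y * x, D.brk x x.2 y y.2⟩ := rfl

theorem bt_self (D : KD J F π q) (z : Kf J F q) : bt D z z = 0 := by
  obtain ⟨x, rfl⟩ := mk_surj z
  rw [bt_mk, ← map_zero (mk J F q), mk_eq]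
  simp

/-- class of the logarithm -/
theorem lo_ex (D : KD J F π q) (k : K) : ∃ z : Kf J F q, ∃ x : LHm p N J F, ∃ g : F,
    mk J F q x = z ∧ ((g : Sˣ) : S) = ex p N (x : S) ∧ π g = k := by
  obtain ⟨g, hg⟩ := D.surj k
  obtain ⟨x, hx, hx2⟩ := D.lg g
  exact ⟨_, ⟨x, hx⟩, g, rfl, hx2, hg⟩

noncomputable def lo (D : KD J F π q) (k : K) : Kf J F q := (lo_ex D k).choose

theorem lo_spec (D : KD J F π q) (x : LHm p N J F) (g : F) (h : ((g : Sˣ) : S) = ex p N (x : S)) :
    lo D (π g) = mk J F q x := by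
  obtain ⟨y, b, h1, h2, h3⟩ := (lo_ex D (π g)).choose_spec
  have : lo D (π g) = mk J F q y := h1.symm
  rw [this, mk_eq]
  exact (D.qiff y y.2 x x.2 b g h2 h).mp h3

theorem lo_inj (D : KD J F π q) : Function.Injective (lo D) := by
  intro k k' hk
  obtain ⟨g, rfl⟩ := D.surj k
  obtain ⟨g', rfl⟩ := D.surj k'
  obtain ⟨x, hx, hx2⟩ := D.lg g
  obtain ⟨x', hx', hx2'⟩ := D.lg g'
  rw [lo_spec D ⟨x, hx⟩ g hx2, lo_spec D ⟨x', hx'⟩ g' hx2', mk_eq] at hk
  exact (D.qiff x hx x' hx' g g' hx2 hx2').mpr hk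

/-- cardinalities -/
theorem card_q :
    Nat.card (LHm p N J F) = Nat.card (q.submoduleOf (LHm p N J F)) * Nat.card (Kf J F q) :=
  Submodule.card_eq_card_quotient_mul_card _

/-- pull back of a functional -/
theorem ap_comp (f : Kf J F q →ₗ[ZMod (p ^ N)] ZMod (p ^ N)) (y : S) (hy : y ∈ LHm p N J F) :
    ap (f ∘ₗ mk J F q) y = f (mk J F q ⟨y, hy⟩) := by
  unfold ap
  rw [dif_pos hy]
  rfl

theorem rad_iff (D : KD J F π q) (f : Kf J F q →ₗ[ZMod (p ^ N)] ZMod (p ^ N)) (x : LHm p N J F) :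
    (x : S) ∈ RadS (f ∘ₗ mk J F q) ↔ ∀ z, f (bt D (mk J F q x) z) = 0 := by
  constructor
  · rintro ⟨_, h⟩ z
    obtain ⟨y, rfl⟩ := mk_surj z
    have := h y y.2
    rw [ap_comp f _ (D.brk x x.2 y y.2)] at this
    exact this
  · intro h
    refine ⟨x.2, fun y hy => ?_⟩
    rw [ap_comp f _ (D.brk x x.2 y hy)]
    exact h (mk J F q ⟨y, hy⟩)

/-- the radical downstairs -/
noncomputable def RadQ (D : KD J F π q) (f : Kf J F q →ₗ[ZMod (p ^ N)] ZMod (p ^ N)) :
    Submodule (ZMod (p ^ N)) (Kf J F q) where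
  carrier := {x | ∀ y, f (bt D x y) = 0}
  add_mem' := by
    intro a b ha hb y
    rw [map_add, LinearMap.add_apply, map_add, ha y, hb y, add_zero]
  zero_mem' := by
    intro y
    rw [map_zero, LinearMap.zero_apply, map_zero]
  smul_mem' := by
    intro c a ha y
    rw [map_smul, LinearMap.smul_apply, map_smul, ha y, smul_zero]

theorem card_rad (D : KD J F π q) [Finite (LHm p N J F)]
    (f : Kf J F q →ₗ[ZMod (p ^ N)] ZMod (p ^ N)) :
    Nat.card (RadS (f ∘ₗ mk J F q)) = Nat.card (q.submoduleOf (LHm p N J F)) *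
      Nat.card {x : Kf J F q // ∀ y, f (bt D x y) = 0} := by
  have h1 : Nat.card (RadS (f ∘ₗ mk J F q)) =
      Nat.card ((RadQ D f).toAddSubgroup.comap (mk J F q).toAddMonoidHom) := by
    refine Nat.card_congr
      { toFun := fun x => ⟨⟨x, x.2.1⟩, ?_⟩
        invFun := fun x => ⟨(x : LHm p N J F), ?_⟩
        left_inv := fun x => rfl
        right_inv := fun x => rfl }
    · exact (rad_iff D f ⟨x, x.2.1⟩).mp x.2
    · exact (rad_iff D f x).mpr x.2
  have h2 : Nat.card {x : Kf J F q // ∀ y, f (bt D x y) = 0} =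
      Nat.card (RadQ D f).toAddSubgroup := rfl
  rw [h1, h2]
  have h3 := AddSubgroup.index_comap_of_surjective (RadQ D f).toAddSubgroup
    (f := (mk J F q).toAddMonoidHom) (fun z => mk_surj z)
  have h4 := AddSubgroup.card_mul_index
    ((RadQ D f).toAddSubgroup.comap (mk J F q).toAddMonoidHom)
  have h5 := AddSubgroup.card_mul_index (RadQ D f).toAddSubgroup
  rw [h3] at h4
  have h6 : (RadQ D f).toAddSubgroup.index ≠ 0 := by
    intro h0
    rw [h0, mul_zero] at h5
    exact Nat.card_ne_zero.mpr ⟨⟨0⟩, Finite.of_surjective _ (mk_surj' (J := J) (F := F) (q := q))⟩ h5.symm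
  have h7 := card_q (J := J) (F := F) (q := q)
  have h8 : Nat.card ((RadQ D f).toAddSubgroup.comap (mk J F q).toAddMonoidHom) *
      (RadQ D f).toAddSubgroup.index =
      (Nat.card (q.submoduleOf (LHm p N J F)) * Nat.card (RadQ D f).toAddSubgroup) *
      (RadQ D f).toAddSubgroup.index := by
    rw [h4, mul_assoc, h5, h7]
  exact Nat.eq_of_mul_eq_mul_right (Nat.pos_of_ne_zero h6) h8

/-- the dimension formula upstairs and downstairs -/
theorem dim_iff (D : KD J F π q) [Finite (LHm p N J F)]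
    (f : Kf J F q →ₗ[ZMod (p ^ N)] ZMod (p ^ N)) (m : ℕ) :
    m ^ 2 * Nat.card (RadS (f ∘ₗ mk J F q)) = Nat.card (LHm p N J F) ↔
      m ^ 2 * Nat.card {x : Kf J F q // ∀ y, f (bt D x y) = 0} = Nat.card (Kf J F q) := by
  rw [card_rad D f, card_q (J := J) (F := F) (q := q)]
  have h : 0 < Nat.card (q.submoduleOf (LHm p N J F)) :=
    Nat.pos_of_ne_zero (Nat.card_ne_zero.mpr ⟨⟨0⟩, inferInstance⟩)
  constructor
  · intro h1
    apply Nat.eq_of_mul_eq_mul_left h
    rw [← h1]; ring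
  · intro h1
    rw [← h1]; ring

end H42.NE.KIRaux
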