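import Pool.Agent.H42.NE.ADX

/-! # NE / LEX: the Lie ring `L / q`, the bijection and `Ad` -/

set_option autoImplicit false

open Finset

namespace H42.NE.KIRaux
open H6.NE

variable {p N c : ℕ} {S : Type} [Ring S] [Algebra (ZMod (p ^ N)) S] {K : Type} [Group K]
  {J : Submodule (ZMod (p ^ N)) S} {F : Subgroup Sˣ} {q : Submodule (ZMod (p ^ N)) S} {π : F →* K}

theorem bt_jac (D : KD J F π q) (x y z : Kf J F q) :
    bt D x (bt D y z) = bt D (bt D x y) z + bt D y (bt D x z) := by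
  obtain ⟨x, rfl⟩ := mk_surj x
  obtain ⟨y, rfl⟩ := mk_surj y
  obtain ⟨z, rfl⟩ := mk_surj z
  simp only [bt_mk]
  rw [← map_add]
  congr 1
  apply Subtype.ext
  simp only [Submodule.coe_add]
  noncomm_ring

/-- Lie ring structure on `L / q` -/
@[reducible] noncomputable def lieR (D : KD J F π q) : LieRing (Kf J F q) :=
  { (inferInstance : AddCommGroup (Kf J F q)) with
    bracket := fun z w => bt D z w
    add_lie := by
      intro x y z
      change bt D (x + y) z = bt D x z + bt D y z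
      rw [map_add, LinearMap.add_apply]
    lie_add := by
      intro x y z
      change bt D x (y + z) = bt D x y + bt D x z
      rw [map_add]
    lie_self := bt_self D
    leibniz_lie := bt_jac D }

theorem lo_surj (D : KD J F π q) : Function.Surjective (lo D) := by
  intro z
  obtain ⟨x, rfl⟩ := mk_surj z
  obtain ⟨g, hg⟩ := D.exx x x.2
  exact ⟨π g, lo_spec D x g hg⟩

/-- the bijection `e` -/
noncomputable def eK (D : KD J F π q) : Kf J F q ≃ K :=
  (Equiv.ofBijective (lo D) ⟨lo_inj D, lo_surj D⟩).symm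

theorem eK_mk (D : KD J F π q) (x : LHm p N J F) (g : F) (h : ((g : Sˣ) : S) = ex p N (x : S)) :
    eK D (mk J F q x) = π g := by
  unfold eK
  rw [Equiv.symm_apply_eq]
  exact (lo_spec D x g h).symm

theorem e_AdQ [Fact p.Prime] (D : KD J F π q) (g : F) (z : Kf J F q) :
    eK D (AdQ D g⁻¹ z) = π g * eK D z * (π g)⁻¹ := by
  obtain ⟨x, rfl⟩ := mk_surj z
  obtain ⟨u, hu⟩ := D.exx x x.2
  rw [AdQ_mk, eK_mk D x u hu]
  rw [eK_mk D (AdL D g⁻¹ x) (g * u * g⁻¹), map_mul, map_mul, map_inv]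
  change _ = ex p N (((((g⁻¹ : F) : Sˣ)⁻¹ : Sˣ) : S) * (x : S) * (((g⁻¹ : F) : Sˣ) : S))
  rw [D.econj, ← hu]
  simp

/-- `Ad` on `K` -/
noncomputable def AdK [Fact p.Prime] (D : KD J F π q) (k : K) : Kf J F q →+ Kf J F q :=
  (AdQ D (D.surj k).choose⁻¹).toAddMonoidHom

theorem e_AdK [Fact p.Prime] (D : KD J F π q) (k : K) (z : Kf J F q) :
    eK D (AdK D k z) = k * eK D z * k⁻¹ := by
  have h := e_AdQ D (D.surj k).choose z
  rw [(D.surj k).choose_spec] at h
  exact h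

theorem AdK_lift [Fact p.Prime] (D : KD J F π q) (g : F) (z : Kf J F q) :
    AdK D (π g) z = AdQ D g⁻¹ z := by
  apply (eK D).injective
  rw [e_AdK, e_AdQ]

theorem AdK_mul [Fact p.Prime] (D : KD J F π q) (k k' : K) (z : Kf J F q) :
    AdK D (k * k') z = AdK D k (AdK D k' z) := by
  apply (eK D).injective
  rw [e_AdK, e_AdK, e_AdK]
  group

theorem AdK_one [Fact p.Prime] (D : KD J F π q) (z : Kf J F q) :
    AdK D 1 z = z := by
  apply (eK D).injective
  rw [e_AdK]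
  group

/-- `ad x` on `L` -/
noncomputable def adL (D : KD J F π q) (x : LHm p N J F) :
    Module.End (ZMod (p ^ N)) (LHm p N J F) where
  toFun y := ⟨(x : S) * y - y * x, D.brk x x.2 y y.2⟩
  map_add' := by
    intro a b
    apply Subtype.ext
    simp only [Submodule.coe_add]
    noncomm_ring
  map_smul' := by
    intro a b
    apply Subtype.ext
    simp [smul_sub]

theorem adL_pow (D : KD J F π q) (x : LHm p N J F) (i : ℕ) (y : LHm p N J F) :
    (((adL D x) ^ i) y : S) = ((adS (p := p) (N := N) (x : S)) ^ i) (y : S) := by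
  induction i generalizing y with
  | zero => simp
  | succ i ih =>
    rw [pow_succ, Module.End.mul_apply, ih, pow_succ, Module.End.mul_apply]
    rfl

theorem bt_pow (D : KD J F π q) (x : LHm p N J F) (i : ℕ) (y : LHm p N J F) :
    ((bt D (mk J F q x) : Module.End (ZMod (p ^ N)) (Kf J F q)) ^ i) (mk J F q y) =
      mk J F q (((adL D x) ^ i) y) := by
  induction i generalizing y with
  | zero => simp
  | succ i ih =>
    rw [pow_succ, Module.End.mul_apply, pow_succ, Module.End.mul_apply]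
    rw [← ih]
    rfl

theorem adS_pow_mem (x y : S) (hx : x ∈ J) (hy : y ∈ J) (i : ℕ) :
    ((adS (p := p) (N := N) x) ^ i) y ∈ J ^ (i + 1) := by
  induction i with
  | zero => simpa using hy
  | succ i ih =>
    rw [pow_succ' (adS (p := p) (N := N) x) i, Module.End.mul_apply]
    change x * _ - _ * x ∈ _
    apply Submodule.sub_mem
    · rw [pow_succ' J (i + 1)]
      exact Submodule.mul_mem_mul hx ih
    · rw [pow_succ J (i + 1)]
      exact Submodule.mul_mem_mul ih hx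

theorem bt_nil (D : KD J F π q) (hn : J ^ (c + 1) = ⊥) (hLJ : LHm p N J F ≤ J) (z : Kf J F q) :
    IsNilpotent (bt D z : Module.End (ZMod (p ^ N)) (Kf J F q)) := by
  obtain ⟨x, rfl⟩ := mk_surj z
  refine ⟨c, ?_⟩
  apply LinearMap.ext
  intro w
  obtain ⟨y, rfl⟩ := mk_surj w
  rw [bt_pow, LinearMap.zero_apply, ← map_zero (mk J F q)]
  congr 1
  apply Subtype.ext
  rw [adL_pow]
  have := adS_pow_mem (N := N) (p := p) (J := J) (x : S) (y : S) (hLJ x.2) (hLJ y.2) c
  rw [hn, Submodule.mem_bot] at this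
  rw [this]; rfl

/-- `Ad (e z) = exp (ad z)` -/
theorem AdK_ex [Fact p.Prime] (hEX : S_EX) (D : KD J F π q) (hJ : J * J ≤ J) (hc : c < p)
    (hn : J ^ (c + 1) = ⊥) (hLJ : LHm p N J F ≤ J) (z w : Kf J F q) :
    AdK D (eK D z) w =
      (ex p N (bt D z : Module.End (ZMod (p ^ N)) (Kf J F q))) w := by
  obtain ⟨x, rfl⟩ := mk_surj z
  obtain ⟨y, rfl⟩ := mk_surj w
  obtain ⟨g, hg⟩ := D.exx x x.2
  rw [eK_mk D x g hg, AdK_lift, AdQ_mk, ex_apply]
  simp only [bt_pow]
  have h1 : AdL D g⁻¹ y =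
      ∑ i ∈ Finset.range p, ((i.factorial : ZMod (p ^ N))⁻¹) • ((adL D x) ^ i) y := by
    apply Subtype.ext
    rw [AddSubmonoidClass.coe_finsetSum]
    have h2 := conj_eq hEX hJ hc hn (x : S) (hLJ x.2) (y : S) (hLJ y.2) (g : Sˣ) hg
    have h3 : ((AdL D g⁻¹ y : LHm p N J F) : S) =
        ((g : Sˣ) : S) * (y : S) * ((((g : Sˣ))⁻¹ : Sˣ) : S) := by
      change (((((g⁻¹ : F) : Sˣ)⁻¹ : Sˣ) : S) * (y : S) * (((g⁻¹ : F) : Sˣ) : S)) = _
      simp
    rw [h3, h2]
    refine Finset.sum_congr rfl fun i _ => ?_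
    rw [Submodule.coe_smul, adL_pow]
  rw [h1, map_sum]
  refine Finset.sum_congr rfl fun i _ => ?_
  rw [map_smul]

theorem eK_zero [Fact p.Prime] (D : KD J F π q) : eK D 0 = 1 := by
  have h0 : ex p N (0 : S) = 1 := by
    rcases ex_zero (p := p) (N := N) (S := S) with h | h
    · exact h
    · exact absurd h (Fact.out : p.Prime).ne_zero
  have h := eK_mk D (0 : LHm p N J F) 1 (by simp [h0])
  rw [map_zero] at h
  rw [h, map_one]

theorem eK_nsmul [Fact p.Prime] (hEX : S_EX) (D : KD J F π q) (hJ : J * J ≤ J) (hc : c < p)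
    (hn : J ^ (c + 1) = ⊥) (hLJ : LHm p N J F ≤ J) (z : Kf J F q) (n : ℕ) :
    eK D ((n : ZMod (p ^ N)) • z) = (eK D z) ^ n := by
  obtain ⟨x, rfl⟩ := mk_surj z
  obtain ⟨g, hg⟩ := D.exx x x.2
  have h1 := ((hEX p N c S J hJ hc hn).2.2.2.2.2.2 (x : S) (hLJ x.2) (g : Sˣ) hg).2 n
  rw [← map_smul, eK_mk D x g hg, eK_mk D ((n : ZMod (p ^ N)) • x) (g ^ n), map_pow]
  rw [Submodule.coe_smul, ← h1]
  simp

theorem eK_neg [Fact p.Prime] (hEX : S_EX) (D : KD J F π q) (hJ : J * J ≤ J) (hc : c < p)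
    (hn : J ^ (c + 1) = ⊥) (hLJ : LHm p N J F ≤ J) (z : Kf J F q) :
    eK D (-z) = (eK D z)⁻¹ := by
  obtain ⟨x, rfl⟩ := mk_surj z
  obtain ⟨g, hg⟩ := D.exx x x.2
  have h1 := (hEX p N c S J hJ hc hn).1 (x : S) (hLJ x.2) (-(x : S))
    (Submodule.neg_mem _ (hLJ x.2)) (Commute.neg_right (Commute.refl _))
  have h0 : ex p N (0 : S) = 1 := by
    rcases ex_zero (p := p) (N := N) (S := S) with h | h
    · exact h
    · exact absurd h (Fact.out : p.Prime).ne_zero
  rw [add_neg_cancel, h0, ← hg] at h1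
  rw [← map_neg, eK_mk D x g hg, eK_mk D (-x) g⁻¹, map_inv]
  have h2 : (((g : Sˣ)⁻¹ : Sˣ) : S) * (((g : Sˣ) : S) * ex p N (-(x : S))) = (((g : Sˣ)⁻¹ : Sˣ) : S) := by
    rw [← h1, mul_one]
  rw [← mul_assoc, Units.inv_mul, one_mul] at h2
  rw [Submodule.coe_neg, h2]
  rfl

end H42.NE.KIRaux
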